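import Pool.Agent.Lib_helper6.IC.Words
import Pool.Agent.Lib_helper98.RenyiInt4
import Pool.Agent.Lib_helper19.QS.Core
import Pool.Agent.Lib_helper95.RC.State

/-!
# Integer exponents: a pair against its conjugate followed by a classical channel
-/

set_option autoImplicit false

open scoped Kronecker ComplexOrder BigOperators

namespace Pool.Agent.Lib_helper6.IC

open Matrix Pool.Agent.Lib_helper98.Renyi

variable {b κ : Type} [Fintype b] [DecidableEq b] [Fintype κ] [DecidableEq κ]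

/-- the entrywise complex conjugate -/
noncomputable def conjM (M : Matrix b b ℂ) : Matrix b b ℂ := M.map (starRingEnd ℂ)

theorem conjM_apply (M : Matrix b b ℂ) (i j : b) : conjM M i j = (starRingEnd ℂ) (M i j) := rfl

theorem conjM_eq (M : Matrix b b ℂ) : conjM M = (starRingEnd ℂ).mapMatrix M := rfl

theorem trace_conjM (M : Matrix b b ℂ) : trace (conjM M) = (starRingEnd ℂ) (trace M) := by
  simp [trace, conjM, map_sum]

theorem ev_conjM (A D : Matrix b b ℂ) (n : ℕ) (w : Fin n → Bool) :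
    ev (conjM A) (conjM D) n w = conjM (ev A D n w) := by
  rw [conjM_eq, conjM_eq, conjM_eq, ev_map]

/-- trace of a power of `A + s D` -/
theorem rt_pow (A D : Matrix b b ℂ) (s : ℝ) (n : ℕ) :
    rt ((A + (s : ℂ) • D) ^ n) = ∑ w, s ^ wt n w * (trace (ev A D n w)).re := by
  rw [add_pow_words, rt, trace_sum, Complex.re_sum]
  refine Finset.sum_congr rfl fun w _ => ?_
  rw [ev_smul, trace_smul, smul_eq_mul, ← Complex.ofReal_pow, Complex.re_ofReal_mul]

theorem Gfun_words {n : ℕ} (hn : n ≠ 0) {A D : Matrix b b ℂ} (h : Adm A D) :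
    Gfun (n : ℝ) A D = ∑ w ∈ W n, (trace (ev A D n w)).re := by
  rw [Gfun, trPow_nat hn h.psd, trPow_nat hn h.add, trPow_nat hn h.sub, ← even_part]
  have h1 := rt_pow A D 1 n
  have h2 := rt_pow A D (-1) n
  simp only [Complex.ofReal_one, one_smul, one_pow, one_mul] at h1
  simp only [Complex.ofReal_neg, Complex.ofReal_one, neg_smul, one_smul, ← sub_eq_add_neg] at h2
  rw [h1, h2]
  have h3 : wt n (fun _ => false) = 0 := (wt_eq_zero_iff n _).2 rfl
  rw [ev_wt_zero A D n _ h3]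
  rfl

/-- sum of the weights -/
theorem sum_W_pow (n : ℕ) (s : ℝ) :
    ∑ w ∈ W n, s ^ wt n w = ((1 + s) ^ n + (1 - s) ^ n) / 2 - 1 := by
  rw [← even_part n fun w => s ^ wt n w]
  have h1 : (1 + s) ^ n = ∑ w, s ^ wt n w := by
    rw [add_pow_words]
    exact Finset.sum_congr rfl fun w _ => ev_one s n w
  have h2 : (1 - s) ^ n = ∑ w, (-1) ^ wt n w * s ^ wt n w := by
    rw [sub_eq_add_neg, add_pow_words]
    refine Finset.sum_congr rfl fun w _ => ?_
    rw [ev_one, neg_pow]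
  have h3 : wt n (fun _ => false) = 0 := (wt_eq_zero_iff n _).2 rfl
  rw [h1, h2, h3, pow_zero]

theorem even_of_mem {n : ℕ} {w : Fin n → Bool} (h : w ∈ W n) : Even (wt n w) :=
  (Finset.mem_filter.1 h).2.1

/-- Cauchy-Schwarz over the words and the landed one-sided inequality -/
theorem single {n : ℕ} (hn : 4 ≤ n) {A D : Matrix b b ℂ} (h : Adm A D) {s : ℝ}
    (h0 : 0 ≤ s) (h1 : s ≤ 1) :
    (∑ w ∈ W n, (trace (ev A D n w)).re) * (∑ w ∈ W n, s ^ wt n w * (trace (ev A D n w)).re) ≤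
      (2 ^ ((n : ℝ) - 1) - 1) *
        ∑ w ∈ W n, s ^ wt n w * Complex.normSq (trace (ev A D n w)) := by
  have hn0 : n ≠ 0 := by omega
  have hn3 : (3 : ℝ) < n := by
    have : (4 : ℝ) ≤ n := by exact_mod_cast hn
    linarith
  have hk : 0 ≤ (2 : ℝ) ^ ((n : ℝ) - 1) - 1 := by
    have : 1 ≤ (2 : ℝ) ^ ((n : ℝ) - 1) := Real.one_le_rpow (by norm_num) (by linarith)
    linarith
  set t : (Fin n → Bool) → ℂ := fun w => trace (ev A D n w) with ht
  have hG : Gfun (n : ℝ) A D = ∑ w ∈ W n, (t w).re := Gfun_words hn0 h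
  have hG0 : 0 ≤ ∑ w ∈ W n, (t w).re := by
    rw [← hG]
    exact Gfun_nonneg (by linarith) h.psd h.add h.sub
  -- the admissible pair `(A, sD)`
  have hs : Adm A ((s : ℂ) • D) := by
    have e1 : A + (s : ℂ) • D = (((1 + s) / 2 : ℝ) : ℂ) • (A + D) +
        (((1 - s) / 2 : ℝ) : ℂ) • (A - D) := by
      push_cast
      module
    have e2 : A - (s : ℂ) • D = (((1 - s) / 2 : ℝ) : ℂ) • (A + D) +
        (((1 + s) / 2 : ℝ) : ℂ) • (A - D) := by
      push_cast
      module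
    have c1 : (0 : ℂ) ≤ (((1 + s) / 2 : ℝ) : ℂ) := by
      exact_mod_cast (by linarith : (0 : ℝ) ≤ (1 + s) / 2)
    have c2 : (0 : ℂ) ≤ (((1 - s) / 2 : ℝ) : ℂ) := by
      exact_mod_cast (by linarith : (0 : ℝ) ≤ (1 - s) / 2)
    refine ⟨h.psd, ?_, ?_, ?_⟩
    · have := h.herm
      rw [Matrix.IsHermitian, conjTranspose_smul, this.eq]
      simp
    · rw [e1]
      exact (h.add.smul c1).add (h.sub.smul c2)
    · rw [e2]
      exact (h.add.smul c2).add (h.sub.smul c1)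
  have hGs : Gfun (n : ℝ) A ((s : ℂ) • D) = ∑ w ∈ W n, s ^ wt n w * (t w).re := by
    rw [Gfun_words hn0 hs]
    refine Finset.sum_congr rfl fun w _ => ?_
    rw [ev_smul, trace_smul, smul_eq_mul, ← Complex.ofReal_pow, Complex.re_ofReal_mul]
  have hp : Pool.Agent.RC.IsPsdPair A D := ⟨h.psd, h.sub, h.add⟩
  have hps : Pool.Agent.RC.IsPsdPair A ((s : ℂ) • D) := ⟨hs.psd, hs.sub, hs.add⟩
  have one := Pool.Agent.Lib_helper19.QS.cqStmt Pool.Agent.Lib_helper19.QS.mpg (n : ℝ) hn3 b A D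
    hp s h0 h1
  rw [← hp.Gfun_eq (by linarith), ← hps.Gfun_eq (by linarith), hG, hGs] at one
  have hcc : Pool.Agent.QB.cc (n : ℝ) s - 1 = ∑ w ∈ W n, s ^ wt n w := by
    rw [sum_W_pow, Pool.Agent.QB.cc, Real.rpow_natCast, Real.rpow_natCast]
  rw [hcc] at one
  -- Cauchy-Schwarz
  have cs : (∑ w ∈ W n, s ^ wt n w * (t w).re) ^ 2 ≤
      (∑ w ∈ W n, s ^ wt n w) * ∑ w ∈ W n, s ^ wt n w * Complex.normSq (t w) := by
    have hw : ∀ w, 0 ≤ s ^ wt n w := fun w => pow_nonneg h0 _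
    have k := Finset.sum_mul_sq_le_sq_mul_sq (W n) (fun w => Real.sqrt (s ^ wt n w))
      (fun w => Real.sqrt (s ^ wt n w) * (t w).re)
    have k1 : ∀ w, Real.sqrt (s ^ wt n w) * (Real.sqrt (s ^ wt n w) * (t w).re) =
        s ^ wt n w * (t w).re := fun w => by
      rw [← mul_assoc, Real.mul_self_sqrt (hw w)]
    simp only [k1, Real.sq_sqrt (hw _), mul_pow] at k
    refine k.trans (mul_le_mul_of_nonneg_left (Finset.sum_le_sum fun w _ => ?_)
      (Finset.sum_nonneg fun w _ => hw w))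
    refine mul_le_mul_of_nonneg_left ?_ (hw w)
    rw [Complex.normSq_apply]
    nlinarith [mul_self_nonneg (t w).im]
  set β := ∑ w ∈ W n, s ^ wt n w with hβ
  set g := ∑ w ∈ W n, s ^ wt n w * (t w).re with hg
  set H := ∑ w ∈ W n, s ^ wt n w * Complex.normSq (t w) with hH
  set G := ∑ w ∈ W n, (t w).re with hGd
  set K := (2 : ℝ) ^ ((n : ℝ) - 1) - 1 with hK
  have hH0 : 0 ≤ H := Finset.sum_nonneg fun w _ =>
    mul_nonneg (pow_nonneg h0 _) (Complex.normSq_nonneg _)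
  have hβ0 : 0 ≤ β := Finset.sum_nonneg fun w _ => pow_nonneg h0 _
  rcases hβ0.eq_or_lt with hb | hb
  · have : g ^ 2 ≤ 0 := by
      have := cs
      rw [← hb, zero_mul] at this
      exact this
    have hg0 : g = 0 := by nlinarith
    rw [hg0, mul_zero]
    exact mul_nonneg hk hH0
  · have hg0 : 0 ≤ g := by
      rw [← hGs]
      exact Gfun_nonneg (by linarith) hs.psd hs.add hs.sub
    have e1 : β * (G * g) ≤ β * (K * H) := by
      calc β * (G * g) = (β * G) * g := by ring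
        _ ≤ (K * g) * g := mul_le_mul_of_nonneg_right one hg0
        _ = K * g ^ 2 := by ring
        _ ≤ K * (β * H) := mul_le_mul_of_nonneg_left cs hk
        _ = β * (K * H) := by ring
    exact le_of_mul_le_mul_left e1 hb

/-- **Pair form.** `A, D` against `Abar x diag c`, `Dbar x diag (c s)`. -/
theorem pair {n : ℕ} (hn : 4 ≤ n) {A D : Matrix b b ℂ} (h : Adm A D) (c s : κ → ℝ)
    (hc : ∀ k, 0 ≤ c k) (hs : ∀ k, |s k| ≤ 1)
    (h' : Adm (conjM A ⊗ₖ diagonal fun k => ((c k : ℝ) : ℂ))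
      (conjM D ⊗ₖ diagonal fun k => ((c k * s k : ℝ) : ℂ))) :
    Gfun (n : ℝ) A D * Gfun (n : ℝ) (conjM A ⊗ₖ diagonal fun k => ((c k : ℝ) : ℂ))
      (conjM D ⊗ₖ diagonal fun k => ((c k * s k : ℝ) : ℂ)) ≤
    (2 ^ ((n : ℝ) - 1) - 1) * Gfun (n : ℝ) (A ⊗ₖ (conjM A ⊗ₖ diagonal fun k => ((c k : ℝ) : ℂ)))
      (D ⊗ₖ (conjM D ⊗ₖ diagonal fun k => ((c k * s k : ℝ) : ℂ))) := by
  have hn0 : n ≠ 0 := by omega
  rw [Gfun_words hn0 h, Gfun_words hn0 h', Gfun_words hn0 (h.kron h')]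
  set t : (Fin n → Bool) → ℂ := fun w => trace (ev A D n w) with ht
  have hd : ∀ w : Fin n → Bool,
      trace (ev (diagonal fun k => ((c k : ℝ) : ℂ)) (diagonal fun k => ((c k * s k : ℝ) : ℂ)) n w) =
        ((∑ k, c k ^ n * s k ^ wt n w : ℝ) : ℂ) := by
    intro w
    have e1 : (diagonal fun k => ((c k : ℝ) : ℂ)) =
        Matrix.diagonalRingHom κ ℂ (fun k => ((c k : ℝ) : ℂ)) := rfl
    have e2 : (diagonal fun k => ((c k * s k : ℝ) : ℂ)) =
        Matrix.diagonalRingHom κ ℂ (fun k => ((c k * s k : ℝ) : ℂ)) := rfl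
    rw [e1, e2, ev_map]
    change trace (diagonal _) = _
    rw [trace_diagonal, Complex.ofReal_sum]
    refine Finset.sum_congr rfl fun k _ => ?_
    rw [ev_pi]
    have e3 : ((c k * s k : ℝ) : ℂ) = (c k : ℂ) * (s k : ℂ) := by push_cast; ring
    rw [e3, ev_scale]
    push_cast
    ring
  have hw2 : ∀ w, (trace (ev (conjM A ⊗ₖ diagonal fun k => ((c k : ℝ) : ℂ))
      (conjM D ⊗ₖ diagonal fun k => ((c k * s k : ℝ) : ℂ)) n w)).re =
      ∑ k, c k ^ n * (s k ^ wt n w * (t w).re) := by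
    intro w
    rw [ev_kron, trace_kronecker, hd, ev_conjM, trace_conjM, mul_comm, Complex.re_ofReal_mul,
      Complex.conj_re, Finset.sum_mul]
    exact Finset.sum_congr rfl fun k _ => by ring
  have hw3 : ∀ w, (trace (ev (A ⊗ₖ (conjM A ⊗ₖ diagonal fun k => ((c k : ℝ) : ℂ)))
      (D ⊗ₖ (conjM D ⊗ₖ diagonal fun k => ((c k * s k : ℝ) : ℂ))) n w)).re =
      ∑ k, c k ^ n * (s k ^ wt n w * Complex.normSq (t w)) := by
    intro w
    rw [ev_kron, ev_kron, trace_kronecker, trace_kronecker, hd, ev_conjM, trace_conjM, ← mul_assoc,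
      Complex.mul_conj, mul_comm, Complex.re_ofReal_mul, Complex.ofReal_re, Finset.sum_mul]
    exact Finset.sum_congr rfl fun k _ => by ring
  simp only [hw2, hw3]
  rw [Finset.sum_comm, Finset.sum_comm (s := W n) (f := fun w k =>
    c k ^ n * (s k ^ wt n w * Complex.normSq (t w))), Finset.mul_sum, Finset.mul_sum]
  refine Finset.sum_le_sum fun k _ => ?_
  rw [← Finset.mul_sum, ← Finset.mul_sum]
  have e : ∀ (f : (Fin n → Bool) → ℝ), ∑ w ∈ W n, s k ^ wt n w * f w =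
      ∑ w ∈ W n, |s k| ^ wt n w * f w := fun f => Finset.sum_congr rfl fun w hw => by
    rw [(even_of_mem hw).pow_abs]
  have k1 := single hn h (abs_nonneg (s k)) (hs k)
  rw [← e fun w => (trace (ev A D n w)).re, ← e fun w => Complex.normSq (trace (ev A D n w))] at k1
  have hcn : 0 ≤ c k ^ n := pow_nonneg (hc k) n
  calc (∑ w ∈ W n, (t w).re) * (c k ^ n * ∑ w ∈ W n, s k ^ wt n w * (t w).re)
      = c k ^ n * ((∑ w ∈ W n, (t w).re) * ∑ w ∈ W n, s k ^ wt n w * (t w).re) := by ring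
    _ ≤ c k ^ n * ((2 ^ ((n : ℝ) - 1) - 1) *
        ∑ w ∈ W n, s k ^ wt n w * Complex.normSq (t w)) := mul_le_mul_of_nonneg_left k1 hcn
    _ = _ := by ring

end Pool.Agent.Lib_helper6.IC
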