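import Pool.Agent.Lib_helper6.IC.Pair

/-!
# Integer exponents: noisy versions of a pair and of its conjugate
-/

set_option autoImplicit false
set_option linter.unusedSectionVars false

open scoped Kronecker ComplexOrder BigOperators

namespace Pool.Agent.Lib_helper6.IC

open Matrix Pool.Agent.Lib_helper98.Renyi

variable {b b' κ κ' : Type} [Fintype b] [DecidableEq b] [Fintype κ] [DecidableEq κ]
  [Fintype b'] [DecidableEq b'] [Fintype κ'] [DecidableEq κ']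

theorem adm_smul {A D : Matrix b b ℂ} (h : Adm A D) {s : ℝ} (h0 : 0 ≤ s) (h1 : s ≤ 1) :
    Adm A ((s : ℂ) • D) := by
  have e1 : A + (s : ℂ) • D = (((1 + s) / 2 : ℝ) : ℂ) • (A + D) +
      (((1 - s) / 2 : ℝ) : ℂ) • (A - D) := by
    push_cast
    module
  have e2 : A - (s : ℂ) • D = (((1 - s) / 2 : ℝ) : ℂ) • (A + D) +
      (((1 + s) / 2 : ℝ) : ℂ) • (A - D) := by
    push_cast
    module
  have c1 : (0 : ℂ) ≤ (((1 + s) / 2 : ℝ) : ℂ) := Complex.zero_le_real.2 (by linarith)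
  have c2 : (0 : ℂ) ≤ (((1 - s) / 2 : ℝ) : ℂ) := Complex.zero_le_real.2 (by linarith)
  refine ⟨h.psd, ?_, ?_, ?_⟩
  · have := h.herm
    rw [Matrix.IsHermitian, conjTranspose_smul, this.eq]
    simp
  · rw [e1]
    exact (h.add.smul c1).add (h.sub.smul c2)
  · rw [e2]
    exact (h.add.smul c2).add (h.sub.smul c1)

/-- two noise parameters `0 ≤ s ≤ r ≤ 1` -/
theorem double_aux {n : ℕ} (hn : 4 ≤ n) {A D : Matrix b b ℂ} (h : Adm A D) {r s : ℝ}
    (h0 : 0 ≤ s) (hsr : s ≤ r) (h1 : r ≤ 1) :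
    (∑ w ∈ W n, r ^ wt n w * (trace (ev A D n w)).re) *
      (∑ w ∈ W n, s ^ wt n w * (trace (ev A D n w)).re) ≤
      (2 ^ ((n : ℝ) - 1) - 1) *
        ∑ w ∈ W n, (r * s) ^ wt n w * Complex.normSq (trace (ev A D n w)) := by
  rcases (h0.trans hsr).eq_or_lt with hr | hr
  · have hs0 : s = 0 := le_antisymm (by rw [hr]; exact hsr) h0
    have z : ∀ f : (Fin n → Bool) → ℝ, ∑ w ∈ W n, (0 : ℝ) ^ wt n w * f w = 0 := fun f =>
      Finset.sum_eq_zero fun w hw => by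
        rw [zero_pow (Finset.mem_filter.1 hw).2.2, zero_mul]
    rw [← hr, hs0, mul_zero, z, z]
    simp
  · have k := single hn (adm_smul h hr.le h1) (s := s / r) (div_nonneg h0 hr.le)
      ((div_le_one hr).2 hsr)
    have e : ∀ w, trace (ev A ((r : ℂ) • D) n w) = ((r ^ wt n w : ℝ) : ℂ) * trace (ev A D n w) :=
      fun w => by rw [ev_smul, trace_smul, smul_eq_mul, ← Complex.ofReal_pow]
    simp only [e, Complex.re_ofReal_mul, map_mul, Complex.normSq_ofReal] at k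
    have e1 : ∀ w, (s / r) ^ wt n w * (r ^ wt n w * (trace (ev A D n w)).re) =
        s ^ wt n w * (trace (ev A D n w)).re := fun w => by
      rw [← mul_assoc, ← mul_pow, div_mul_cancel₀ _ hr.ne']
    have e2 : ∀ w, (s / r) ^ wt n w * (r ^ wt n w * r ^ wt n w *
        Complex.normSq (trace (ev A D n w))) =
        (r * s) ^ wt n w * Complex.normSq (trace (ev A D n w)) := fun w => by
      rw [← mul_assoc, ← mul_pow, ← mul_pow]
      congr 2
      field_simp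
    simp only [e1, e2] at k
    exact k

theorem double {n : ℕ} (hn : 4 ≤ n) {A D : Matrix b b ℂ} (h : Adm A D) {r s : ℝ}
    (hr : |r| ≤ 1) (hs : |s| ≤ 1) :
    (∑ w ∈ W n, r ^ wt n w * (trace (ev A D n w)).re) *
      (∑ w ∈ W n, s ^ wt n w * (trace (ev A D n w)).re) ≤
      (2 ^ ((n : ℝ) - 1) - 1) *
        ∑ w ∈ W n, (r * s) ^ wt n w * Complex.normSq (trace (ev A D n w)) := by
  have e : ∀ (x : ℝ) (f : (Fin n → Bool) → ℝ), ∑ w ∈ W n, x ^ wt n w * f w =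
      ∑ w ∈ W n, |x| ^ wt n w * f w := fun x f => Finset.sum_congr rfl fun w hw => by
    rw [(even_of_mem hw).pow_abs]
  rw [e r, e s, e (r * s), abs_mul]
  rcases le_total |s| |r| with h1 | h1
  · exact double_aux hn h (abs_nonneg s) h1 hr
  · have := double_aux hn h (abs_nonneg r) h1 hs
    rw [mul_comm, mul_comm |r|]
    exact this

theorem trace_ev_kron_diag (A D : Matrix b b ℂ) (c s : κ → ℝ) (n : ℕ) (w : Fin n → Bool) :
    trace (ev (A ⊗ₖ diagonal fun k => ((c k : ℝ) : ℂ))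
      (D ⊗ₖ diagonal fun k => ((c k * s k : ℝ) : ℂ)) n w) =
        ((∑ k, c k ^ n * s k ^ wt n w : ℝ) : ℂ) * trace (ev A D n w) := by
  have hd : trace (ev (diagonal fun k => ((c k : ℝ) : ℂ))
      (diagonal fun k => ((c k * s k : ℝ) : ℂ)) n w) =
        ((∑ k, c k ^ n * s k ^ wt n w : ℝ) : ℂ) := by
    have e1 : (diagonal fun k => ((c k : ℝ) : ℂ)) =
        Matrix.diagonalRingHom κ ℂ (fun k => ((c k : ℝ) : ℂ)) := rfl
    have e2 : (diagonal fun k => ((c k * s k : ℝ) : ℂ)) =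
        Matrix.diagonalRingHom κ ℂ (fun k => ((c k * s k : ℝ) : ℂ)) := rfl
    rw [e1, e2, ev_map]
    change trace (diagonal _) = _
    rw [trace_diagonal, Complex.ofReal_sum]
    refine Finset.sum_congr rfl fun k _ => ?_
    rw [ev_pi]
    have e3 : ((c k * s k : ℝ) : ℂ) = (c k : ℂ) * (s k : ℂ) := by push_cast; ring
    rw [e3, ev_scale]
    push_cast
    ring
  rw [ev_kron, trace_kronecker, hd, mul_comm]

/-- **Pair form.** Noisy versions of two pairs with conjugate word traces. -/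
theorem pair2 {n : ℕ} (hn : 4 ≤ n) {A D : Matrix b b ℂ} {A' D' : Matrix b' b' ℂ} (h : Adm A D)
    (htr : ∀ w, trace (ev A' D' n w) = (starRingEnd ℂ) (trace (ev A D n w)))
    (c r : κ → ℝ) (c' s : κ' → ℝ)
    (hc : ∀ k, 0 ≤ c k) (hc' : ∀ k, 0 ≤ c' k) (hr : ∀ k, |r k| ≤ 1) (hs : ∀ k, |s k| ≤ 1)
    {A₁ D₁ : Matrix (b × κ) (b × κ) ℂ} {A₂ D₂ : Matrix (b' × κ') (b' × κ') ℂ}
    (eA₁ : A₁ = A ⊗ₖ diagonal fun k => ((c k : ℝ) : ℂ))
    (eD₁ : D₁ = D ⊗ₖ diagonal fun k => ((c k * r k : ℝ) : ℂ))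
    (eA₂ : A₂ = A' ⊗ₖ diagonal fun k => ((c' k : ℝ) : ℂ))
    (eD₂ : D₂ = D' ⊗ₖ diagonal fun k => ((c' k * s k : ℝ) : ℂ))
    (h₁ : Adm A₁ D₁) (h₂ : Adm A₂ D₂) :
    Gfun (n : ℝ) A₁ D₁ * Gfun (n : ℝ) A₂ D₂ ≤
    (2 ^ ((n : ℝ) - 1) - 1) * Gfun (n : ℝ) (A₁ ⊗ₖ A₂) (D₁ ⊗ₖ D₂) := by
  have hn0 : n ≠ 0 := by omega
  rw [Gfun_words hn0 h₁, Gfun_words hn0 h₂, Gfun_words hn0 (h₁.kron h₂)]
  set t : (Fin n → Bool) → ℂ := fun w => trace (ev A D n w) with ht
  have w1 : ∀ w, trace (ev A₁ D₁ n w) = ((∑ k, c k ^ n * r k ^ wt n w : ℝ) : ℂ) * t w := fun w => by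
    rw [eA₁, eD₁, trace_ev_kron_diag]
  have w2 : ∀ w, trace (ev A₂ D₂ n w) =
      ((∑ k, c' k ^ n * s k ^ wt n w : ℝ) : ℂ) * (starRingEnd ℂ) (t w) := fun w => by
    rw [eA₂, eD₂, trace_ev_kron_diag, htr]
  have hw1 : ∀ w, (trace (ev A₁ D₁ n w)).re = ∑ k, c k ^ n * (r k ^ wt n w * (t w).re) := fun w => by
    rw [w1, Complex.re_ofReal_mul, Finset.sum_mul]
    exact Finset.sum_congr rfl fun k _ => by ring
  have hw2 : ∀ w, (trace (ev A₂ D₂ n w)).re = ∑ k, c' k ^ n * (s k ^ wt n w * (t w).re) := fun w => by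
    rw [w2, Complex.re_ofReal_mul, Complex.conj_re, Finset.sum_mul]
    exact Finset.sum_congr rfl fun k _ => by ring
  have hw3 : ∀ w, (trace (ev (A₁ ⊗ₖ A₂) (D₁ ⊗ₖ D₂) n w)).re =
      ∑ k, ∑ l, c k ^ n * c' l ^ n * ((r k * s l) ^ wt n w * Complex.normSq (t w)) := fun w => by
    rw [ev_kron, trace_kronecker, w1, w2]
    have : ((∑ k, c k ^ n * r k ^ wt n w : ℝ) : ℂ) * t w *
        (((∑ k, c' k ^ n * s k ^ wt n w : ℝ) : ℂ) * (starRingEnd ℂ) (t w)) =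
        (((∑ k, c k ^ n * r k ^ wt n w) * (∑ k, c' k ^ n * s k ^ wt n w) : ℝ) : ℂ) *
          (t w * (starRingEnd ℂ) (t w)) := by
      push_cast
      ring
    rw [this, Complex.mul_conj, ← Complex.ofReal_mul, Complex.ofReal_re, Finset.sum_mul_sum,
      Finset.sum_mul]
    refine Finset.sum_congr rfl fun k _ => ?_
    rw [Finset.sum_mul]
    refine Finset.sum_congr rfl fun l _ => ?_
    rw [mul_pow]
    ring
  have s1 : ∑ w ∈ W n, (trace (ev A₁ D₁ n w)).re =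
      ∑ k, c k ^ n * ∑ w ∈ W n, r k ^ wt n w * (t w).re := by
    simp only [hw1]
    rw [Finset.sum_comm]
    exact Finset.sum_congr rfl fun k _ => by rw [← Finset.mul_sum]
  have s2 : ∑ w ∈ W n, (trace (ev A₂ D₂ n w)).re =
      ∑ l, c' l ^ n * ∑ w ∈ W n, s l ^ wt n w * (t w).re := by
    simp only [hw2]
    rw [Finset.sum_comm]
    exact Finset.sum_congr rfl fun k _ => by rw [← Finset.mul_sum]
  have s3 : ∑ w ∈ W n, (trace (ev (A₁ ⊗ₖ A₂) (D₁ ⊗ₖ D₂) n w)).re =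
      ∑ k, ∑ l, c k ^ n * c' l ^ n *
        ∑ w ∈ W n, (r k * s l) ^ wt n w * Complex.normSq (t w) := by
    simp only [hw3]
    rw [Finset.sum_comm]
    refine Finset.sum_congr rfl fun k _ => ?_
    rw [Finset.sum_comm]
    exact Finset.sum_congr rfl fun l _ => by rw [← Finset.mul_sum]
  rw [s1, s2, s3, Finset.sum_mul_sum]
  have s4 : (2 ^ ((n : ℝ) - 1) - 1) * (∑ k, ∑ l, c k ^ n * c' l ^ n *
        ∑ w ∈ W n, (r k * s l) ^ wt n w * Complex.normSq (t w)) =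
      ∑ k, ∑ l, (2 ^ ((n : ℝ) - 1) - 1) * (c k ^ n * c' l ^ n *
        ∑ w ∈ W n, (r k * s l) ^ wt n w * Complex.normSq (t w)) := by
    rw [Finset.mul_sum]
    exact Finset.sum_congr rfl fun k _ => Finset.mul_sum _ _ _
  rw [s4]
  refine Finset.sum_le_sum fun k _ => ?_
  refine Finset.sum_le_sum fun l _ => ?_
  have k1 := double hn h (hr k) (hs l)
  have hcn : 0 ≤ c k ^ n * c' l ^ n := mul_nonneg (pow_nonneg (hc k) n) (pow_nonneg (hc' l) n)
  calc c k ^ n * (∑ w ∈ W n, r k ^ wt n w * (t w).re) *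
        (c' l ^ n * ∑ w ∈ W n, s l ^ wt n w * (t w).re)
      = c k ^ n * c' l ^ n * ((∑ w ∈ W n, r k ^ wt n w * (t w).re) *
        ∑ w ∈ W n, s l ^ wt n w * (t w).re) := by ring
    _ ≤ c k ^ n * c' l ^ n * ((2 ^ ((n : ℝ) - 1) - 1) *
        ∑ w ∈ W n, (r k * s l) ^ wt n w * Complex.normSq (t w)) :=
        mul_le_mul_of_nonneg_left k1 hcn
    _ = _ := by ring

/-- two pairs with conjugate word traces -/
theorem pair0 {n : ℕ} (hn : 4 ≤ n) {A D : Matrix b b ℂ} {A' D' : Matrix b' b' ℂ} (h : Adm A D)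
    (h' : Adm A' D') (htr : ∀ w, trace (ev A' D' n w) = (starRingEnd ℂ) (trace (ev A D n w))) :
    Gfun (n : ℝ) A D * Gfun (n : ℝ) A' D' ≤
    (2 ^ ((n : ℝ) - 1) - 1) * Gfun (n : ℝ) (A ⊗ₖ A') (D ⊗ₖ D') := by
  have hn0 : n ≠ 0 := by omega
  rw [Gfun_words hn0 h, Gfun_words hn0 h', Gfun_words hn0 (h.kron h')]
  have k := single hn h zero_le_one le_rfl
  simp only [one_pow, one_mul] at k
  have e : ∀ w, (trace (ev (A ⊗ₖ A') (D ⊗ₖ D') n w)).re =
      Complex.normSq (trace (ev A D n w)) := fun w => by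
    rw [ev_kron, trace_kronecker, htr, Complex.mul_conj, Complex.ofReal_re]
  simp only [htr, Complex.conj_re, e]
  exact k

end Pool.Agent.Lib_helper6.IC
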