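import Pool.Agent.Lib_helper6.IC.Pair

/-!
# Integer exponents: a state against its conjugate followed by a classical channel
-/

set_option autoImplicit false
set_option linter.unusedSectionVars false

open scoped Kronecker ComplexOrder BigOperators

namespace Pool.Agent.Lib_helper6.IC

open Matrix Polynomial Pool.Agent.Lib_helper98.Renyi

variable {b κ : Type} [Fintype b] [DecidableEq b] [Fintype κ] [DecidableEq κ]

/-- complex conjugation as a real algebra homomorphism -/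
noncomputable def conjHomM : Matrix b b ℂ →ₐ[ℝ] Matrix b b ℂ :=
  (Complex.conjAe : ℂ →ₐ[ℝ] ℂ).mapMatrix

theorem conjHomM_apply (M : Matrix b b ℂ) : conjHomM M = conjM M := rfl

theorem conjM_isHermitian {M : Matrix b b ℂ} (h : M.IsHermitian) : (conjM M).IsHermitian := by
  ext i j
  rw [conjTranspose_apply, conjM_apply, conjM_apply, ← h.apply i j]
  simp

theorem conjM_mul (M N : Matrix b b ℂ) : conjM (M * N) = conjM M * conjM N := by
  rw [← conjHomM_apply, map_mul]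
  rfl

theorem conjM_conjTranspose (M : Matrix b b ℂ) : conjM Mᴴ = (conjM M)ᴴ := by
  ext i j
  simp [conjM_apply, conjTranspose_apply]

theorem conjM_posSemidef {M : Matrix b b ℂ} (h : M.PosSemidef) : (conjM M).PosSemidef := by
  have e : conjM M = Mᵀ := by
    ext i j
    rw [conjM_apply, transpose_apply, ← h.1.apply i j]
    simp
  rw [e]
  exact h.transpose

theorem mpow_conjM {M : Matrix b b ℂ} (h : M.IsHermitian) (s : ℝ) :
    mpow (conjM M) s = conjM (mpow M s) := by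
  classical
  obtain ⟨p, hp, hp'⟩ := exists_poly_spectra (Finset.univ : Finset (Fin 1)) (fun _ => M)
    ((spectrum_finite (conjM M)).toFinset) (supPow s)
  rw [mpow, mpow, cfc_eq_aeval (conjM_isHermitian h) _ p fun x hx => hp' x (by simpa using hx),
    cfc_eq_aeval h _ p (hp 0 (Finset.mem_univ _)), ← conjHomM_apply, ← conjHomM_apply,
    Polynomial.aeval_algHom_apply]

theorem mpow_diag (s : ℝ) (c : κ → ℝ) :
    mpow (diagonal fun k => ((c k : ℝ) : ℂ)) s = diagonal fun k => ((supPow s (c k) : ℝ) : ℂ) := by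
  have h := mpow_conj_diagonal s (1 : Matrix κ κ ℂ) (by simp) c
  simpa using h

/-- the conjugate of `σ` followed by the classical channel with weights `ω` -/
noncomputable def noisyConj (ω : Fin 2 → κ → ℝ) (σ : Fin 2 → Matrix b b ℂ) (x : Fin 2) :
    Matrix (b × κ) (b × κ) ℂ :=
  ∑ y : Fin 2, conjM (σ (x + y)) ⊗ₖ diagonal fun k => ((ω y k : ℝ) : ℂ)

theorem rhoOf_noisy (ω : Fin 2 → κ → ℝ) (σ : Fin 2 → Matrix b b ℂ) :
    rhoOf (noisyConj ω σ) = conjM (rhoOf σ) ⊗ₖ diagonal fun k => ((ω 0 k + ω 1 k : ℝ) : ℂ) := by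
  ext ⟨i, k⟩ ⟨j, l⟩
  by_cases h : k = l
  · subst h
    have h2 : (starRingEnd ℂ) 2 = 2 := map_ofNat _ 2
    simp [rhoOf, noisyConj, conjM, Fin.sum_univ_two, h2]
    ring
  · simp [rhoOf, noisyConj, conjM, Fin.sum_univ_two, h]

theorem delOf_noisy (ω : Fin 2 → κ → ℝ) (σ : Fin 2 → Matrix b b ℂ) :
    delOf (noisyConj ω σ) = conjM (delOf σ) ⊗ₖ diagonal fun k => ((ω 0 k - ω 1 k : ℝ) : ℂ) := by
  ext ⟨i, k⟩ ⟨j, l⟩
  by_cases h : k = l
  · subst h
    have h2 : (starRingEnd ℂ) 2 = 2 := map_ofNat _ 2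
    simp [delOf, noisyConj, conjM, Fin.sum_univ_two, h2]
    ring
  · simp [delOf, noisyConj, conjM, Fin.sum_univ_two, h]

theorem diag_psd {c : κ → ℝ} (h : ∀ k, 0 ≤ c k) :
    (diagonal fun k => ((c k : ℝ) : ℂ)).PosSemidef := by
  refine PosSemidef.diagonal fun k => ?_
  exact Complex.zero_le_real.2 (h k)

theorem Aop_noisy {ω : Fin 2 → κ → ℝ} (hω : ∀ y k, 0 ≤ ω y k) {σ : Fin 2 → Matrix b b ℂ}
    (h : ∀ x, IsDensity (σ x)) (α : ℝ) :
    Aop α (noisyConj ω σ) =
      conjM (Aop α σ) ⊗ₖ diagonal fun k => ((supPow (1 / α) (ω 0 k + ω 1 k) : ℝ) : ℂ) := by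
  have hρ := rhoOf_posSemidef h
  rw [Aop, rhoOf_noisy, mpow_kronecker (conjM_posSemidef hρ)
    (diag_psd fun k => add_nonneg (hω 0 k) (hω 1 k)), mpow_conjM hρ.1, mpow_diag, Aop]

theorem sup_aux {α x y : ℝ} (hα : 0 < α) (hx : 0 ≤ x) (hy : |y| ≤ x) :
    supPow ((1 - α) / (2 * α)) x * y * supPow ((1 - α) / (2 * α)) x =
      supPow (1 / α) x * (y / x) := by
  rcases hx.eq_or_lt with h0 | h0
  · subst h0
    simp [supPow_zero_right]
  · rw [supPow_of_ne h0.ne', supPow_of_ne h0.ne']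
    have e : x ^ ((1 - α) / (2 * α)) * x ^ ((1 - α) / (2 * α)) * x = x ^ (1 / α) := by
      rw [← Real.rpow_add h0]
      nth_rewrite 2 [← Real.rpow_one x]
      rw [← Real.rpow_add h0]
      congr 1
      field_simp
      ring
    rw [← e]
    field_simp

theorem Dop_noisy {ω : Fin 2 → κ → ℝ} (hω : ∀ y k, 0 ≤ ω y k) {σ : Fin 2 → Matrix b b ℂ}
    (h : ∀ x, IsDensity (σ x)) {α : ℝ} (hα : 0 < α) :
    Dop α (noisyConj ω σ) =
      conjM (Dop α σ) ⊗ₖ diagonal fun k => ((supPow (1 / α) (ω 0 k + ω 1 k) *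
        ((ω 0 k - ω 1 k) / (ω 0 k + ω 1 k)) : ℝ) : ℂ) := by
  have hρ := rhoOf_posSemidef h
  rw [Dop, rhoOf_noisy, mpow_kronecker (conjM_posSemidef hρ)
    (diag_psd fun k => add_nonneg (hω 0 k) (hω 1 k)), mpow_conjM hρ.1, mpow_diag, delOf_noisy,
    ← mul_kronecker_mul, ← mul_kronecker_mul, ← conjM_mul, ← conjM_mul, diagonal_mul_diagonal,
    diagonal_mul_diagonal, Dop]
  congr 2
  funext k
  rw [← Complex.ofReal_mul, ← Complex.ofReal_mul, sup_aux hα (add_nonneg (hω 0 k) (hω 1 k))]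
  rw [abs_le]
  constructor <;> linarith [hω 0 k, hω 1 k]

theorem isDensity_noisy {ω : Fin 2 → κ → ℝ} (hω : ∀ y k, 0 ≤ ω y k)
    (hs : ∑ k, (ω 0 k + ω 1 k) = 1) {σ : Fin 2 → Matrix b b ℂ} (h : ∀ x, IsDensity (σ x))
    (x : Fin 2) : IsDensity (noisyConj ω σ x) := by
  have ht : ∀ y, trace (conjM (σ y)) = 1 := fun y => by rw [trace_conjM, (h y).2]; simp
  refine ⟨?_, ?_⟩
  · refine posSemidef_sum _ fun y _ => ?_
    exact (conjM_posSemidef (h _).1).kronecker (diag_psd (hω y))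
  · rw [noisyConj, trace_sum, Fin.sum_univ_two, trace_kronecker, trace_kronecker, ht, ht,
      trace_diagonal, trace_diagonal, one_mul, one_mul, ← Complex.ofReal_sum, ← Complex.ofReal_sum,
      ← Complex.ofReal_add, ← Finset.sum_add_distrib, hs]
    simp

/-- **Theorem.** Every integer `α ≥ 4`: a state against its conjugate followed by a classical
channel. -/
theorem identical {n : ℕ} (hn : 4 ≤ n) {ω : Fin 2 → κ → ℝ} (hω : ∀ y k, 0 ≤ ω y k)
    (hs : ∑ k, (ω 0 k + ω 1 k) = 1) {σ : Fin 2 → Matrix b b ℂ} (h : ∀ x, IsDensity (σ x)) :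
    Hsum (n : ℝ) σ (noisyConj ω σ) ≤ Fval (n : ℝ) σ (noisyConj ω σ) := by
  have hα : (0 : ℝ) < n := by
    have : 0 < n := by omega
    exact_mod_cast this
  have hne : (n : ℝ) ≠ 1 := by
    have : n ≠ 1 := by omega
    exact_mod_cast this
  have h₂ := isDensity_noisy hω hs h
  refine Hsum_le_Fval h h₂ hα hne ?_
  have a₁ := adm_of_density h hα
  have a₂ := adm_of_density h₂ hα
  rw [Aop_noisy hω h, Dop_noisy hω h hα] at a₂ ⊢
  refine pair hn a₁ (fun k => supPow (1 / (n : ℝ)) (ω 0 k + ω 1 k))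
    (fun k => (ω 0 k - ω 1 k) / (ω 0 k + ω 1 k)) (fun k => supPow_nonneg
      (add_nonneg (hω 0 k) (hω 1 k))) (fun k => ?_) a₂
  rw [abs_div, abs_of_nonneg (add_nonneg (hω 0 k) (hω 1 k))]
  refine div_le_one_of_le₀ ?_ (add_nonneg (hω 0 k) (hω 1 k))
  rw [abs_le]
  constructor <;> linarith [hω 0 k, hω 1 k]

end Pool.Agent.Lib_helper6.IC
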