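import Pool.Agent.Lib_helper6.IC.State
import Pool.Agent.Lib_helper6.IC.Pair2

/-!
# Integer exponents: noisy versions of a state and of its conjugate
-/

set_option autoImplicit false
set_option linter.unusedSectionVars false

open scoped Kronecker ComplexOrder BigOperators

namespace Pool.Agent.Lib_helper6.IC

open Matrix Polynomial Pool.Agent.Lib_helper98.Renyi

variable {b κ κ' : Type} [Fintype b] [DecidableEq b] [Fintype κ] [DecidableEq κ]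
  [Fintype κ'] [DecidableEq κ']

/-- `Noisy ω σ x = ∑ y, σ (x + y) ⊗ diag (ω y)`: with probability `ω y k` the label `x` is replaced
by `x + y` and the flag `k` is written into a classical register. -/
noncomputable def Noisy (ω : Fin 2 → κ → ℝ) (σ : Fin 2 → Matrix b b ℂ) (x : Fin 2) :
    Matrix (b × κ) (b × κ) ℂ :=
  ∑ y : Fin 2, σ (x + y) ⊗ₖ diagonal fun k => ((ω y k : ℝ) : ℂ)

/-- The complex conjugate of `σ x` (entrywise), rotated by `U`. -/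
noncomputable def Conj (U : Matrix b b ℂ) (σ : Fin 2 → Matrix b b ℂ) (x : Fin 2) : Matrix b b ℂ :=
  U * (σ x).map (starRingEnd ℂ) * Uᴴ

theorem rhoOf_Noisy (ω : Fin 2 → κ → ℝ) (σ : Fin 2 → Matrix b b ℂ) :
    rhoOf (Noisy ω σ) = rhoOf σ ⊗ₖ diagonal fun k => ((ω 0 k + ω 1 k : ℝ) : ℂ) := by
  ext ⟨i, k⟩ ⟨j, l⟩
  by_cases h : k = l
  · subst h
    simp [rhoOf, Noisy, Fin.sum_univ_two]
    ring
  · simp [rhoOf, Noisy, Fin.sum_univ_two, h]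

theorem delOf_Noisy (ω : Fin 2 → κ → ℝ) (σ : Fin 2 → Matrix b b ℂ) :
    delOf (Noisy ω σ) = delOf σ ⊗ₖ diagonal fun k => ((ω 0 k - ω 1 k : ℝ) : ℂ) := by
  ext ⟨i, k⟩ ⟨j, l⟩
  by_cases h : k = l
  · subst h
    simp [delOf, Noisy, Fin.sum_univ_two]
    ring
  · simp [delOf, Noisy, Fin.sum_univ_two, h]

theorem Aop_Noisy {ω : Fin 2 → κ → ℝ} (hω : ∀ y k, 0 ≤ ω y k) {σ : Fin 2 → Matrix b b ℂ}
    (h : ∀ x, IsDensity (σ x)) (α : ℝ) :
    Aop α (Noisy ω σ) =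
      Aop α σ ⊗ₖ diagonal fun k => ((supPow (1 / α) (ω 0 k + ω 1 k) : ℝ) : ℂ) := by
  have hρ := rhoOf_posSemidef h
  rw [Aop, rhoOf_Noisy, mpow_kronecker hρ
    (diag_psd fun k => add_nonneg (hω 0 k) (hω 1 k)), mpow_diag, Aop]

theorem Dop_Noisy {ω : Fin 2 → κ → ℝ} (hω : ∀ y k, 0 ≤ ω y k) {σ : Fin 2 → Matrix b b ℂ}
    (h : ∀ x, IsDensity (σ x)) {α : ℝ} (hα : 0 < α) :
    Dop α (Noisy ω σ) =
      Dop α σ ⊗ₖ diagonal fun k => ((supPow (1 / α) (ω 0 k + ω 1 k) *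
        ((ω 0 k - ω 1 k) / (ω 0 k + ω 1 k)) : ℝ) : ℂ) := by
  have hρ := rhoOf_posSemidef h
  rw [Dop, rhoOf_Noisy, mpow_kronecker hρ
    (diag_psd fun k => add_nonneg (hω 0 k) (hω 1 k)), mpow_diag, delOf_Noisy,
    ← mul_kronecker_mul, ← mul_kronecker_mul, diagonal_mul_diagonal,
    diagonal_mul_diagonal, Dop]
  congr 2
  funext k
  rw [← Complex.ofReal_mul, ← Complex.ofReal_mul, sup_aux hα (add_nonneg (hω 0 k) (hω 1 k))]
  rw [abs_le]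
  constructor <;> linarith [hω 0 k, hω 1 k]

theorem isDensity_Noisy {ω : Fin 2 → κ → ℝ} (hω : ∀ y k, 0 ≤ ω y k)
    (hs : ∑ k, (ω 0 k + ω 1 k) = 1) {σ : Fin 2 → Matrix b b ℂ} (h : ∀ x, IsDensity (σ x))
    (x : Fin 2) : IsDensity (Noisy ω σ x) := by
  have ht : ∀ y, trace (σ y) = 1 := fun y => (h y).2
  refine ⟨?_, ?_⟩
  · refine posSemidef_sum _ fun y _ => ?_
    exact (h _).1.kronecker (diag_psd (hω y))
  · rw [Noisy, trace_sum, Fin.sum_univ_two, trace_kronecker, trace_kronecker, ht, ht,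
      trace_diagonal, trace_diagonal, one_mul, one_mul, ← Complex.ofReal_sum, ← Complex.ofReal_sum,
      ← Complex.ofReal_add, ← Finset.sum_add_distrib, hs]
    simp

theorem mpow_unitary {U : Matrix b b ℂ} (hU : Uᴴ * U = 1) {M : Matrix b b ℂ} (h : M.PosSemidef)
    (s : ℝ) : mpow (U * M * Uᴴ) s = U * mpow M s * Uᴴ := by
  obtain ⟨V, c, hV, -, hc, rfl⟩ := exists_spectral_nonneg h
  have e : ∀ d : b → ℂ, U * (V * diagonal d * Vᴴ) * Uᴴ = (U * V) * diagonal d * (U * V)ᴴ :=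
    fun d => by
      rw [conjTranspose_mul]
      simp only [Matrix.mul_assoc]
  have hUV : (U * V)ᴴ * (U * V) = 1 := by
    rw [conjTranspose_mul, Matrix.mul_assoc, ← Matrix.mul_assoc Uᴴ, hU, Matrix.one_mul, hV]
  rw [e, mpow_conj_diagonal _ _ hUV, mpow_conj_diagonal _ V hV, e]

theorem isDensity_Conj {U : Matrix b b ℂ} (hU : Uᴴ * U = 1) {σ : Fin 2 → Matrix b b ℂ}
    (h : ∀ x, IsDensity (σ x)) (x : Fin 2) : IsDensity (Conj U σ x) := by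
  refine ⟨(conjM_posSemidef (h x).1).mul_mul_conjTranspose_same U, ?_⟩
  have e : trace (conjM (σ x)) = 1 := by rw [trace_conjM, (h x).2]; simp
  change trace (U * conjM (σ x) * Uᴴ) = 1
  rw [trace_mul_cycle, hU, Matrix.one_mul, e]

theorem rhoOf_Conj (U : Matrix b b ℂ) (σ : Fin 2 → Matrix b b ℂ) :
    rhoOf (Conj U σ) = U * conjM (rhoOf σ) * Uᴴ := by
  have h2 : (starRingEnd ℂ) 2 = 2 := map_ofNat _ 2
  have e : conjM (rhoOf σ) = (1 / 2 : ℂ) • (conjM (σ 0) + conjM (σ 1)) := by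
    ext i j
    simp [rhoOf, conjM, h2]
    ring
  rw [e, rhoOf, Matrix.mul_smul, Matrix.smul_mul, Matrix.mul_add, Matrix.add_mul]
  rfl

theorem delOf_Conj (U : Matrix b b ℂ) (σ : Fin 2 → Matrix b b ℂ) :
    delOf (Conj U σ) = U * conjM (delOf σ) * Uᴴ := by
  have h2 : (starRingEnd ℂ) 2 = 2 := map_ofNat _ 2
  have e : conjM (delOf σ) = (1 / 2 : ℂ) • (conjM (σ 0) - conjM (σ 1)) := by
    ext i j
    simp [delOf, conjM, h2]
  rw [e, delOf, Matrix.mul_smul, Matrix.smul_mul, Matrix.mul_sub, Matrix.sub_mul]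
  rfl

theorem Aop_Conj {U : Matrix b b ℂ} (hU : Uᴴ * U = 1) {σ : Fin 2 → Matrix b b ℂ}
    (h : ∀ x, IsDensity (σ x)) (α : ℝ) : Aop α (Conj U σ) = U * conjM (Aop α σ) * Uᴴ := by
  have hρ := rhoOf_posSemidef h
  rw [Aop, rhoOf_Conj, mpow_unitary hU (conjM_posSemidef hρ), mpow_conjM hρ.1, Aop]

theorem Dop_Conj {U : Matrix b b ℂ} (hU : Uᴴ * U = 1) {σ : Fin 2 → Matrix b b ℂ}
    (h : ∀ x, IsDensity (σ x)) (α : ℝ) : Dop α (Conj U σ) = U * conjM (Dop α σ) * Uᴴ := by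
  have hρ := rhoOf_posSemidef h
  have e : ∀ X Y Z : Matrix b b ℂ, U * X * Uᴴ * (U * Y * Uᴴ) * (U * Z * Uᴴ) =
      U * (X * Y * Z) * Uᴴ := fun X Y Z => by
    calc U * X * Uᴴ * (U * Y * Uᴴ) * (U * Z * Uᴴ)
        = U * X * (Uᴴ * U) * Y * (Uᴴ * U) * Z * Uᴴ := by simp only [Matrix.mul_assoc]
      _ = _ := by rw [hU]; simp only [Matrix.mul_assoc, Matrix.one_mul]
  rw [Dop, rhoOf_Conj, mpow_unitary hU (conjM_posSemidef hρ), mpow_conjM hρ.1, delOf_Conj, e,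
    ← conjM_mul, ← conjM_mul, Dop]

theorem trace_ev_Conj {U : Matrix b b ℂ} (hU : Uᴴ * U = 1) (A D : Matrix b b ℂ) (n : ℕ)
    (w : Fin n → Bool) : trace (ev (U * conjM A * Uᴴ) (U * conjM D * Uᴴ) n w) =
      (starRingEnd ℂ) (trace (ev A D n w)) := by
  have e : ∀ M, U * M * Uᴴ = (conjHom U hU : Matrix b b ℂ →ₐ[ℝ] Matrix b b ℂ).toRingHom M :=
    fun M => rfl
  rw [e, e, ev_map, ev_conjM, ← trace_conjM]
  change trace (U * conjM (ev A D n w) * Uᴴ) = _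
  rw [trace_mul_cycle, hU, Matrix.one_mul]

/-- **Theorem.** Every integer `α ≥ 4`: noisy versions of a state and of its conjugate. -/
theorem conjugates {n : ℕ} (hn : 4 ≤ n) {ω₁ : Fin 2 → κ → ℝ} {ω₂ : Fin 2 → κ' → ℝ}
    (hω₁ : ∀ y k, 0 ≤ ω₁ y k) (hω₂ : ∀ y k, 0 ≤ ω₂ y k)
    (hs₁ : ∑ k, (ω₁ 0 k + ω₁ 1 k) = 1) (hs₂ : ∑ k, (ω₂ 0 k + ω₂ 1 k) = 1)
    {U : Matrix b b ℂ} (hU : Uᴴ * U = 1)
    {σ : Fin 2 → Matrix b b ℂ} (h : ∀ x, IsDensity (σ x)) :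
    Hsum (n : ℝ) (Noisy ω₁ σ) (Noisy ω₂ (Conj U σ)) ≤
      Fval (n : ℝ) (Noisy ω₁ σ) (Noisy ω₂ (Conj U σ)) := by
  have hα : (0 : ℝ) < n := by
    have : 0 < n := by omega
    exact_mod_cast this
  have hne : (n : ℝ) ≠ 1 := by
    have : n ≠ 1 := by omega
    exact_mod_cast this
  have hc := isDensity_Conj hU h
  have h₁ := isDensity_Noisy hω₁ hs₁ h
  have h₂ := isDensity_Noisy hω₂ hs₂ hc
  refine Hsum_le_Fval h₁ h₂ hα hne ?_
  have hd : ∀ x y : ℝ, 0 ≤ x → 0 ≤ y → |(x - y) / (x + y)| ≤ 1 := fun x y hx hy => by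
    rw [abs_div, abs_of_nonneg (add_nonneg hx hy)]
    refine div_le_one_of_le₀ ?_ (add_nonneg hx hy)
    rw [abs_le]
    constructor <;> linarith
  exact pair2 (b := b) (b' := b) (κ := κ) (κ' := κ') hn (adm_of_density h hα)
    (A' := U * conjM (Aop n σ) * Uᴴ) (D' := U * conjM (Dop n σ) * Uᴴ)
    (trace_ev_Conj hU _ _ n)
    (fun k => supPow (1 / (n : ℝ)) (ω₁ 0 k + ω₁ 1 k))
    (fun k => (ω₁ 0 k - ω₁ 1 k) / (ω₁ 0 k + ω₁ 1 k))
    (fun k => supPow (1 / (n : ℝ)) (ω₂ 0 k + ω₂ 1 k))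
    (fun k => (ω₂ 0 k - ω₂ 1 k) / (ω₂ 0 k + ω₂ 1 k))
    (fun k => supPow_nonneg (add_nonneg (hω₁ 0 k) (hω₁ 1 k)))
    (fun k => supPow_nonneg (add_nonneg (hω₂ 0 k) (hω₂ 1 k)))
    (fun k => hd _ _ (hω₁ 0 k) (hω₁ 1 k)) (fun k => hd _ _ (hω₂ 0 k) (hω₂ 1 k))
    (Aop_Noisy hω₁ h n) (Dop_Noisy hω₁ h hα)
    (by rw [Aop_Noisy hω₂ hc, Aop_Conj hU h]) (by rw [Dop_Noisy hω₂ hc hα, Dop_Conj hU h])
    (adm_of_density h₁ hα) (adm_of_density h₂ hα)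

/-- **Theorem.** Every integer `α ≥ 4`: a state and its conjugate. -/
theorem conjugate {n : ℕ} (hn : 4 ≤ n) {U : Matrix b b ℂ} (hU : Uᴴ * U = 1)
    {σ : Fin 2 → Matrix b b ℂ} (h : ∀ x, IsDensity (σ x)) :
    Hsum (n : ℝ) σ (Conj U σ) ≤ Fval (n : ℝ) σ (Conj U σ) := by
  have hα : (0 : ℝ) < n := by
    have : 0 < n := by omega
    exact_mod_cast this
  have hne : (n : ℝ) ≠ 1 := by
    have : n ≠ 1 := by omega
    exact_mod_cast this
  have hc := isDensity_Conj hU h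
  refine Hsum_le_Fval h hc hα hne ?_
  refine pair0 hn (adm_of_density h hα) (adm_of_density hc hα) fun w => ?_
  rw [Aop_Conj hU h, Dop_Conj hU h, trace_ev_Conj hU]

/-- **Theorem.** Every integer `α ≥ 4`: two identical copies of a state with real entries. -/
theorem copies {n : ℕ} (hn : 4 ≤ n) {σ : Fin 2 → Matrix b b ℂ} (h : ∀ x, IsDensity (σ x))
    (hr : ∀ x i j, (σ x i j).im = 0) : Hsum (n : ℝ) σ σ ≤ Fval (n : ℝ) σ σ := by
  have e : Conj 1 σ = σ := by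
    funext x
    have e1 : (σ x).map (starRingEnd ℂ) = σ x := by
      ext i j
      rw [Matrix.map_apply]
      exact Complex.conj_eq_iff_im.2 (hr x i j)
    rw [Conj, e1]
    simp
  have k := conjugate hn (U := (1 : Matrix b b ℂ)) (by simp) h
  rwa [e] at k

end Pool.Agent.Lib_helper6.IC
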