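import Mathlib

/-!
# Words in two letters: expansion of powers, weights, conjugates, Kronecker products
-/

set_option autoImplicit false

open scoped Kronecker ComplexOrder BigOperators

namespace Pool.Agent.Lib_helper6.IC

open Matrix

/-- the product of the letters of the word `w` (`true` is the letter `y`) -/
def ev {R : Type*} [Monoid R] (x y : R) : (n : ℕ) → (Fin n → Bool) → R
  | 0, _ => 1
  | n + 1, w => (if w 0 then y else x) * ev x y n (Fin.tail w)

/-- the number of letters `y` -/
def wt : (n : ℕ) → (Fin n → Bool) → ℕ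
  | 0, _ => 0
  | n + 1, w => (if w 0 then 1 else 0) + wt n (Fin.tail w)

theorem sum_words {M : Type*} [AddCommMonoid M] (n : ℕ) (f : (Fin (n + 1) → Bool) → M) :
    ∑ w, f w = ∑ w : Fin n → Bool, (f (Fin.cons true w) + f (Fin.cons false w)) := by
  rw [← (Fin.consEquiv (fun _ => Bool)).sum_comp, Fintype.sum_prod_type, Fintype.sum_bool,
    ← Finset.sum_add_distrib]
  rfl

theorem add_pow_words {R : Type*} [Semiring R] (x y : R) (n : ℕ) :
    (x + y) ^ n = ∑ w, ev x y n w := by
  induction n with
  | zero => simp [ev]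
  | succ n ih =>
    rw [sum_words, pow_succ', ih, Finset.mul_sum]
    refine Finset.sum_congr rfl fun w _ => ?_
    simp [ev, add_mul, add_comm]

theorem ev_smul {K R : Type*} [CommSemiring K] [Semiring R] [Algebra K R] (x y : R) (s : K)
    (n : ℕ) (w : Fin n → Bool) : ev x (s • y) n w = s ^ wt n w • ev x y n w := by
  induction n with
  | zero => simp [ev, wt]
  | succ n ih =>
    rw [ev, ev, wt, ih]
    by_cases h : w 0
    · simp only [h, if_true, pow_add, pow_one]
      rw [smul_mul_smul_comm]
    · simp [h]

theorem ev_scale {K : Type*} [CommSemiring K] (c s : K) (n : ℕ) (w : Fin n → Bool) :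
    ev c (c * s) n w = c ^ n * s ^ wt n w := by
  induction n with
  | zero => simp [ev, wt]
  | succ n ih =>
    rw [ev, wt, ih]
    by_cases h : w 0
    · simp only [h, if_true, pow_add, pow_one, pow_succ']; ring
    · simp only [h, Bool.false_eq_true, if_false, zero_add, pow_succ']; ring

theorem ev_pi {ι : Type*} {R : ι → Type*} [∀ i, Monoid (R i)] (x y : ∀ i, R i) (n : ℕ)
    (w : Fin n → Bool) (i : ι) : ev x y n w i = ev (x i) (y i) n w := by
  induction n with
  | zero => simp [ev]
  | succ n ih =>
    rw [ev, ev, Pi.mul_apply, ih]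
    by_cases h : w 0 <;> simp [h]

theorem ev_one {K : Type*} [CommSemiring K] (s : K) (n : ℕ) (w : Fin n → Bool) :
    ev (1 : K) s n w = s ^ wt n w := by
  induction n with
  | zero => simp [ev, wt]
  | succ n ih =>
    rw [ev, wt, ih]
    by_cases h : w 0
    · simp [h, pow_add]
    · simp [h]

theorem ev_map {R S : Type*} [Semiring R] [Semiring S] (φ : R →+* S) (x y : R) (n : ℕ)
    (w : Fin n → Bool) : ev (φ x) (φ y) n w = φ (ev x y n w) := by
  induction n with
  | zero => simp [ev]
  | succ n ih =>
    rw [ev, ev, ih, map_mul]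
    by_cases h : w 0 <;> simp [h]

theorem ev_kron {n m : Type*} [Fintype n] [DecidableEq n] [Fintype m] [DecidableEq m]
    (A D : Matrix n n ℂ) (A' D' : Matrix m m ℂ) (k : ℕ) (w : Fin k → Bool) :
    ev (A ⊗ₖ A') (D ⊗ₖ D') k w = ev A D k w ⊗ₖ ev A' D' k w := by
  induction k with
  | zero => simp [ev]
  | succ k ih =>
    rw [ev, ev, ev, ih]
    by_cases h : w 0 <;> simp [h, mul_kronecker_mul]

theorem ev_wt_zero {R : Type*} [Monoid R] (x y : R) (n : ℕ) (w : Fin n → Bool)
    (h : wt n w = 0) : ev x y n w = x ^ n := by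
  induction n with
  | zero => simp [ev]
  | succ n ih =>
    rw [wt] at h
    have h0 : w 0 = false := by
      by_contra hc
      simp [hc] at h
    rw [ev, ih _ (by simpa [h0] using h), h0, pow_succ']
    simp

theorem wt_eq_zero_iff (n : ℕ) (w : Fin n → Bool) : wt n w = 0 ↔ w = fun _ => false := by
  induction n with
  | zero => simp [wt]; exact Subsingleton.elim _ _
  | succ n ih =>
    rw [wt]
    constructor
    · intro h
      have h0 : w 0 = false := by
        by_contra hc
        simp [hc] at h
      have h1 : Fin.tail w = fun _ => false := (ih _).1 (by simpa [h0] using h)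
      funext i
      refine Fin.cases h0 (fun j => ?_) i
      exact congrFun h1 j
    · rintro rfl
      have : Fin.tail (fun _ : Fin (n + 1) => false) = fun _ => false := rfl
      simp [this, (ih _).2 rfl]

/-- the words with an even, positive number of letters `y` -/
def W (n : ℕ) : Finset (Fin n → Bool) :=
  Finset.univ.filter fun w => Even (wt n w) ∧ wt n w ≠ 0

/-- even part of a power, without the word `x ^ n` -/
theorem even_part (n : ℕ) (f : (Fin n → Bool) → ℝ) :
    ((∑ w, f w) + ∑ w, (-1) ^ wt n w * f w) / 2 - f (fun _ => false) = ∑ w ∈ W n, f w := by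
  have h1 : ((∑ w, f w) + ∑ w, (-1) ^ wt n w * f w) / 2 =
      ∑ w, (if Even (wt n w) then f w else 0) := by
    rw [← Finset.sum_add_distrib, Finset.sum_div]
    refine Finset.sum_congr rfl fun w _ => ?_
    by_cases h : Even (wt n w)
    · rw [h.neg_one_pow, if_pos h]; ring
    · rw [(Nat.not_even_iff_odd.1 h).neg_one_pow, if_neg h]; ring
  rw [h1, W, Finset.sum_filter, ← Finset.sum_erase_add _ _ (Finset.mem_univ (fun _ => false)),
    ← Finset.sum_erase_add (s := Finset.univ) (a := fun _ => false)
      (f := fun w => if Even (wt n w) ∧ wt n w ≠ 0 then f w else 0) (Finset.mem_univ _)]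
  have h2 : wt n (fun _ => false) = 0 := (wt_eq_zero_iff n _).2 rfl
  rw [h2, if_pos Even.zero, if_neg (by simp), add_sub_cancel_right, add_zero]
  refine Finset.sum_congr rfl fun w hw => ?_
  have h3 : wt n w ≠ 0 := fun h => (Finset.mem_erase.1 hw).1 ((wt_eq_zero_iff n w).1 h)
  simp [h3]

end Pool.Agent.Lib_helper6.IC
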